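import Pool.Agent.N332.SK.Defs5
import Pool.Agent.N891.LS.KS7a
import Pool.Agent.N545.LS.KS6Main
import Pool.Agent.N169.LS.KS1
import Pool.Agent.N169.LS.KS3
import Pool.Agent.N368.LS.LU4

set_option autoImplicit false

/-! # Project LS part 3 (helper332), KT1 (helper701): the tenth power of `f` -/

namespace Pool.Agent.N701.LS

open Finset Pool.Agent.H384R3.SPk Pool.Agent.N356.SP

section Abs

variable {Γ R : Type*} [AddCommGroup Γ] [CommRing R] [Algebra ℝ R] {K : Cone Γ R}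
  {L : R →ₗ[ℝ] ℝ} {C : Finset Γ} {θ : Γ → Γ → ℝ} {φ : Γ → R}

/-- KT1 -/
theorem L_U5 (hL : IsFun K L) (hφ : ∀ c, φ c ∈ K.P c) : 0 ≤ L (UA C φ ^ 5) := by
  classical
  have hu : ∀ d, uA C φ d ∈ K.P d := Pool.Agent.N169.LS.uA_mem hφ
  have h1 : UA C φ ^ 5 = ∑ a ∈ (DD C).erase 0, ∑ b ∈ (DD C).erase 0, ∑ c ∈ (DD C).erase 0,
      ∑ d ∈ (DD C).erase 0, ∑ e ∈ (DD C).erase 0,
        uA C φ a * (uA C φ b * (uA C φ c * (uA C φ d * uA C φ e))) := by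
    have h2 : UA C φ = ∑ d ∈ (DD C).erase 0, uA C φ d := rfl
    have h3 : UA C φ ^ 5 = UA C φ * (UA C φ * (UA C φ * (UA C φ * UA C φ))) := by ring
    rw [h3, h2, Finset.sum_mul_sum, Finset.sum_mul_sum, Finset.sum_mul_sum, Finset.sum_mul_sum]
    simp only [Finset.mul_sum]
  rw [h1]
  simp only [map_sum]
  refine Finset.sum_nonneg fun a _ => Finset.sum_nonneg fun b _ => Finset.sum_nonneg fun c _ =>
    Finset.sum_nonneg fun d _ => Finset.sum_nonneg fun e _ => ?_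
  exact Pool.Agent.N169.LS.L_nn hL (K.mul _ _ _ _ (hu a) (K.mul _ _ _ _ (hu b)
    (K.mul _ _ _ _ (hu c) (K.mul _ _ _ _ (hu d) (hu e)))))

/-- the abstract step -/
theorem abs_f10 {f μ U v w : R} (hL : IsFun K L) (hμ : μ ∈ K.P 0)
    (hf : f ^ 2 = μ + U)
    (HU : ∀ L : R →ₗ[ℝ] ℝ, IsFun K L → L U = 0)
    (HU2 : ∀ L : R →ₗ[ℝ] ℝ, IsFun K L → L (U ^ 2) = L v)
    (HU3 : ∀ L : R →ₗ[ℝ] ℝ, IsFun K L → 0 ≤ L (U ^ 3))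
    (HU4 : ∀ L : R →ₗ[ℝ] ℝ, IsFun K L → 3 / 2 * L (v ^ 2) ≤ L (U ^ 4))
    (HU5 : 0 ≤ L (U ^ 5))
    (Hf6 : ∀ L : R →ₗ[ℝ] ℝ, IsFun K L → 5 / 2 * L (μ ^ 3) + 8 / 3 * L (μ * w) ≤ L (f ^ 6))
    (Hv2 : ∀ L : R →ₗ[ℝ] ℝ, IsFun K L →
      64 / 225 * L (w ^ 2) ≤ L (v ^ 2) - L (μ ^ 2 * v) + 1 / 4 * L (μ ^ 4)) :
    63 / 8 * L (μ ^ 5) + 140 / 9 * L (μ ^ 3 * w) + 32 / 15 * L (μ * w ^ 2) ≤ L (f ^ 10) := by
  have hm := fun n => Pool.Agent.N891.LS.isFun_ml hL (Pool.Agent.N891.LS.pow0 hμ n)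
  have a1 : L (μ ^ 4 * U) = 0 := HU _ (hm 4)
  have a2 : L (μ ^ 3 * U ^ 2) = L (μ ^ 3 * v) := HU2 _ (hm 3)
  have a3 : 0 ≤ L (μ ^ 2 * U ^ 3) := HU3 _ (hm 2)
  have a4 : 3 / 2 * L (μ ^ 1 * v ^ 2) ≤ L (μ ^ 1 * U ^ 4) := HU4 _ (hm 1)
  have a5 : 5 / 2 * L (μ ^ 2 * μ ^ 3) + 8 / 3 * L (μ ^ 2 * (μ * w)) ≤ L (μ ^ 2 * f ^ 6) :=
    Hf6 _ (hm 2)
  have a6 : 64 / 225 * L (μ ^ 1 * w ^ 2) ≤
      L (μ ^ 1 * v ^ 2) - L (μ ^ 1 * (μ ^ 2 * v)) + 1 / 4 * L (μ ^ 1 * μ ^ 4) := Hv2 _ (hm 1)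
  have e1 : μ ^ 2 * μ ^ 3 = μ ^ 5 := by ring
  have e2 : μ ^ 2 * (μ * w) = μ ^ 3 * w := by ring
  have e3 : μ ^ 2 * f ^ 6 = μ ^ 5 + (3 : ℝ) • (μ ^ 4 * U) + (3 : ℝ) • (μ ^ 3 * U ^ 2) +
      μ ^ 2 * U ^ 3 := by
    have h1 : f ^ 6 = (μ + U) ^ 3 := by rw [← hf]; ring
    rw [h1]
    simp only [Algebra.smul_def, map_ofNat]
    ring
  have e4 : μ ^ 1 * (μ ^ 2 * v) = μ ^ 3 * v := by ring
  have e5 : μ ^ 1 * μ ^ 4 = μ ^ 5 := by ring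
  have e6 : f ^ 10 = μ ^ 5 + (5 : ℝ) • (μ ^ 4 * U) + (10 : ℝ) • (μ ^ 3 * U ^ 2) +
      (10 : ℝ) • (μ ^ 2 * U ^ 3) + (5 : ℝ) • (μ * U ^ 4) + U ^ 5 := by
    have h1 : f ^ 10 = (μ + U) ^ 5 := by rw [← hf]; ring
    rw [h1]
    simp only [Algebra.smul_def, map_ofNat]
    ring
  rw [e1, e2, e3] at a5
  rw [e4, e5, pow_one] at a6
  rw [pow_one] at a4
  simp only [map_add, map_smul, smul_eq_mul] at a5
  rw [e6]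
  simp only [map_add, map_smul, smul_eq_mul]
  rw [a1, a2] at a5 ⊢
  linarith

/-- KT1 from KS5 (`L_f6`) -/
theorem L_f10_of (hL : IsFun K L) (h : GoodC C θ) (hφ : ∀ c, φ c ∈ K.P c)
    (L_f6 : ∀ L : R →ₗ[ℝ] ℝ, IsFun K L →
      5 / 2 * L (muA C φ ^ 3) + 8 / 3 * L (muA C φ * wA C θ φ) ≤ L (fA C φ ^ 6)) :
    63 / 8 * L (muA C φ ^ 5) + 140 / 9 * L (muA C φ ^ 3 * wA C θ φ) +
      32 / 15 * L (muA C φ * wA C θ φ ^ 2) ≤ L (fA C φ ^ 10) := by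
  have hμ : muA C φ ∈ K.P 0 := Pool.Agent.N169.LS.muA_mem hφ
  have hv : vA C φ ∈ K.P 0 := Pool.Agent.N169.LS.vA_mem hφ
  have hw : wA C θ φ ∈ K.P 0 := Pool.Agent.N169.LS.wA_mem hφ h.nn
  exact abs_f10 hL hμ (Pool.Agent.N169.LS.fA_sq h.neg)
    (fun L hL => Pool.Agent.N169.LS.L_U hL hφ)
    (fun L hL => Pool.Agent.N169.LS.L_U2 hL h.neg hφ)
    (fun L hL => Pool.Agent.N169.LS.L_U3 hL hφ)
    (fun L hL => Pool.Agent.N368.LS.L_U4'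
      (fun hneg hne J J0 => Pool.Agent.N169.LS.comb2s hneg hne J J0) hL h hφ)
    (L_U5 hL hφ) L_f6
    (fun L hL => Pool.Agent.N891.LS.abs_v2 hL hμ hv hw
      fun L hL => Pool.Agent.N545.LS.L_v hL h hφ)

end Abs

end Pool.Agent.N701.LS
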